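import Pool.Agent.FGT.Stmts

/-!
# Row CLS of FGT (helper64)
-/

namespace Pool.Agent.FGT.H64

open Pool.Agent.FGT

universe u

theorem act_inv {L : Type u} [Group L] (α : L →* Equiv.Perm ℤ) (g : L) (j : ℤ) :
    α g (α g⁻¹ j) = j ∧ α g⁻¹ (α g j) = j := by
  constructor
  · rw [← Equiv.Perm.mul_apply, ← map_mul, mul_inv_cancel, map_one]
    rfl
  · rw [← Equiv.Perm.mul_apply, ← map_mul, inv_mul_cancel, map_one]
    rfl

/-- row CLS -/
theorem cls : ClsStmt.{u} := by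
  intro L _ α hα I hI K c z y s hc hs hlk
  classical
  have hex : ∀ x : ℤ, ∃ g : L, x ∈ s → α g z = x := by
    intro x
    by_cases hx : x ∈ s
    · obtain ⟨g, hg⟩ := (hs x hx).2
      exact ⟨g, fun _ => hg⟩
    · exact ⟨1, fun h => absurd h hx⟩
  choose gg hgg using hex
  refine hI.card_le s (fun x => ⇑(α (gg x)⁻¹) '' orb α K y) ?_ c ?_
  · intro x hx x' hx' hne
    rw [Set.disjoint_left]
    rintro p ⟨y₁, ⟨k₁, hk₁, h1⟩, hp1⟩ ⟨y₂, ⟨k₂, hk₂, h2⟩, hp2⟩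
    apply hlk x hx x' hx' hne
    have f1 : α k₁ x = x := (hs x hx).1 k₁ hk₁
    have f2 : α k₂⁻¹ x' = x' := (hs x' hx').1 k₂⁻¹ (K.inv_mem hk₂)
    have e1 : α (gg x)⁻¹ x = z := by
      have h3 := (act_inv α (gg x) z).2
      rwa [hgg x hx] at h3
    refine ⟨k₂⁻¹ * gg x' * (gg x)⁻¹ * k₁, ?_, ?_⟩
    · simp only [map_mul, Equiv.Perm.mul_apply]
      rw [h1, hp1, ← hp2, (act_inv α (gg x') y₂).1, ← h2, (act_inv α k₂ y).2]
    · simp only [map_mul, Equiv.Perm.mul_apply]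
      rw [f1, e1, hgg x' hx', f2]
  · intro x hx
    obtain ⟨R, hR⟩ := hα (gg x)⁻¹
    rw [hI.ms_perm (α (gg x)⁻¹) R hR]
    exact hc

end Pool.Agent.FGT.H64
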